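import Pool.Agent.W5h93.FMQ.Layers
import Pool.Agent.W5h93.FMP.Arith
import Pool.Agent.W99.UF.TameN
import Pool.Agent.W880.UF2.Wild

/-! Eigencomponents of the class group of the field of the `p`-th roots of unity, tame primes,
Vandiver's condition. -/

set_option autoImplicit false
set_option linter.all false

namespace Pool.Agent.W5h93.FMQ

open NumberField Pool.Agent.W569.FM Pool.Agent.W569.UF Pool.Agent.W134.FM Pool.Agent.W5h93.FMP
open Pool.Agent.Z384 IsLocalRing Matrix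

theorem tamen : S_TAMEN := Pool.Agent.W99.UF.main Pool.Agent.W880.UF2.wild

section

variable {p : ℕ} [hp : Fact p.Prime]

/-- the cyclotomic character -/
theorem exists_chi (p : ℕ) [hp : Fact p.Prime] : ∃ χ : GF ℚ →* (ZMod p)ˣ,
    (∀ g, g ∈ fx (cyc ℚ p) ↔ χ g = 1) ∧
    (∀ g : GF ℚ, ∀ z : AlgebraicClosure ℚ, z ^ p = 1 → g z = z ^ ((χ g : (ZMod p)ˣ) : ZMod p).val) ∧
    (∀ (g : GF ℚ) (w : ℕ), (∀ z : AlgebraicClosure ℚ, z ^ p = 1 → g z = z ^ w) →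
      ((χ g : (ZMod p)ˣ) : ZMod p) = (w : ZMod p)) ∧ Function.Surjective χ ∧
    ∃ ζ : AlgebraicClosure ℚ, IsPrimitiveRoot ζ p := by
  have : NeZero p := ⟨hp.out.ne_zero⟩
  haveI : Fact (1 < p) := ⟨hp.out.one_lt⟩
  obtain ⟨ζ, hζ⟩ := HasEnoughRootsOfUnity.exists_primitiveRoot (AlgebraicClosure ℚ) p
  set χ : GF ℚ →* (ZMod p)ˣ := hζ.autToPow ℚ with hχ
  have hspec : ∀ g : GF ℚ, ζ ^ ((χ g : (ZMod p)ˣ) : ZMod p).val = g ζ :=
    fun g => hζ.autToPow_spec ℚ g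
  have h2 : ∀ g : GF ℚ, ∀ z : AlgebraicClosure ℚ, z ^ p = 1 →
      g z = z ^ ((χ g : (ZMod p)ˣ) : ZMod p).val := by
    intro g z hz
    obtain ⟨i, -, rfl⟩ := hζ.eq_pow_of_pow_eq_one hz
    rw [map_pow, ← hspec g, ← pow_mul, ← pow_mul, mul_comm]
  have h3 : ∀ (g : GF ℚ) (w : ℕ), (∀ z : AlgebraicClosure ℚ, z ^ p = 1 → g z = z ^ w) →
      ((χ g : (ZMod p)ˣ) : ZMod p) = (w : ZMod p) := by
    intro g w hw
    have e1 := hspec g
    rw [hw ζ hζ.pow_eq_one, ← pow_mod_orderOf ζ w, ← hζ.eq_orderOf] at e1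
    have e2 := hζ.pow_inj (ZMod.val_lt _) (Nat.mod_lt _ hp.out.pos) e1
    rw [← ZMod.natCast_zmod_val ((χ g : (ZMod p)ˣ) : ZMod p), e2, ZMod.natCast_mod]
  refine ⟨χ, ?_, h2, h3, ?_, ζ, hζ⟩
  · intro g
    rw [mem_cyc]
    constructor
    · intro h
      have := h3 g 1 (fun z hz => by rw [h z hz, pow_one])
      rw [Nat.cast_one] at this
      exact Units.ext this
    · intro h z hz
      rw [h2 g z hz, h, Units.val_one, ZMod.val_one, pow_one]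
  · intro u
    have hcop : Nat.Coprime ((u : ZMod p).val) p := ZMod.val_coe_unit_coprime u
    obtain ⟨γ, hγ⟩ := Pool.Agent.W924.UF.zeta.2 p (u : ZMod p).val hp.out hcop
    refine ⟨γ, Units.ext ?_⟩
    rw [h3 γ _ hγ, ZMod.natCast_zmod_val]

theorem fx_cyc_open : IsOpen (fx (cyc ℚ p) : Set (GF ℚ)) := by
  have : NeZero p := ⟨hp.out.ne_zero⟩
  obtain ⟨ζ, hζ⟩ := HasEnoughRootsOfUnity.exists_primitiveRoot (AlgebraicClosure ℚ) p
  refine Subgroup.isOpen_mono (H₁ := MulAction.stabilizer (GF ℚ) ζ) ?_ (isOpen_stab ζ)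
  intro g hg
  rw [MulAction.mem_stabilizer_iff] at hg
  have hg' : g ζ = ζ := hg
  rw [mem_cyc]
  intro z hz
  obtain ⟨i, -, rfl⟩ := hζ.eq_pow_of_pow_eq_one hz
  rw [map_pow, hg']

/-- no unramified characters of order `p` in the component `ω ^ (i - j)` -/
def NoComp (p i j : ℕ) [Fact p.Prime] : Prop :=
  ∀ h : fx (cyc ℚ p) →* Multiplicative (ZMod p), IsOpen (h.ker : Set (fx (cyc ℚ p))) →
    (∀ P : Ideal (OO ℚ), P.IsMaximal → ∀ τ : fx (cyc ℚ p), InInertia P (τ : GF ℚ) → h τ = 1) →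
    (∀ (σ : GF ℚ) (w : ℕ), (∀ z : AlgebraicClosure ℚ, z ^ p = 1 → σ z = z ^ w) →
      ∀ τ τ' : fx (cyc ℚ p), (τ' : GF ℚ) = σ * τ * σ⁻¹ → h τ' ^ w ^ j = h τ ^ w ^ i) →
    ∀ σ, h σ = 1

/-- the maximal real subfield -/
noncomputable def rcyc (F : Type) [Field F] (p : ℕ) : IntermediateField F (AlgebraicClosure F) :=
  IntermediateField.adjoin F {x | ∃ z : AlgebraicClosure F, z ^ p = 1 ∧ x = z + z⁻¹}

/-- Vandiver's condition: no unramified characters of order `p` -/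
def Vand (p : ℕ) : Prop :=
  ∀ h : fx (rcyc ℚ p) →* Multiplicative (ZMod p), IsOpen (h.ker : Set (fx (rcyc ℚ p))) →
    (∀ P : Ideal (OO ℚ), P.IsMaximal → ∀ τ : fx (rcyc ℚ p), InInertia P (τ : GF ℚ) → h τ = 1) →
    ∀ σ, h σ = 1

theorem mem_rcyc {σ : GF ℚ} :
    σ ∈ fx (rcyc ℚ p) ↔ ∀ z : AlgebraicClosure ℚ, z ^ p = 1 → σ z + (σ z)⁻¹ = z + z⁻¹ := by
  rw [mem_fx]
  constructor
  · intro h z hz
    have := h (z + z⁻¹) (IntermediateField.subset_adjoin ℚ _ ⟨z, hz, rfl⟩)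
    rwa [map_add, map_inv₀] at this
  · intro h x hx
    refine IntermediateField.adjoin_induction (F := ℚ)
      (s := {x | ∃ z : AlgebraicClosure ℚ, z ^ p = 1 ∧ x = z + z⁻¹})
      (p := fun x _ => σ x = x) ?_ ?_ ?_ ?_ ?_ hx
    · rintro x ⟨z, hz, rfl⟩
      rw [map_add, map_inv₀, h z hz]
    · intro x; exact σ.commutes x
    · intro x y _ _ h1 h2; rw [map_add, h1, h2]
    · intro x _ h1; rw [map_inv₀, h1]
    · intro x y _ _ h1 h2; rw [map_mul, h1, h2]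

theorem cyc_le_rcyc : fx (cyc ℚ p) ≤ fx (rcyc ℚ p) := by
  intro σ hσ
  rw [mem_rcyc]
  rw [mem_cyc] at hσ
  intro z hz
  rw [hσ z hz]

/-- the elements of the absolute Galois group of the real subfield -/
theorem rcyc_chi {χ : GF ℚ →* (ZMod p)ˣ}
    (h3 : ∀ (g : GF ℚ) (w : ℕ), (∀ z : AlgebraicClosure ℚ, z ^ p = 1 → g z = z ^ w) →
      ((χ g : (ZMod p)ˣ) : ZMod p) = (w : ZMod p))
    {ζ : AlgebraicClosure ℚ} (hζ : IsPrimitiveRoot ζ p) {σ : GF ℚ} (hσ : σ ∈ fx (rcyc ℚ p)) :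
    χ σ = 1 ∨ χ σ = -1 := by
  have : NeZero p := ⟨hp.out.ne_zero⟩
  have h0 : ζ ≠ 0 := hζ.ne_zero hp.out.ne_zero
  have h1 := mem_rcyc.1 hσ ζ hζ.pow_eq_one
  have h00 : σ ζ ≠ 0 := by
    intro h
    exact h0 (by
      have := congrArg σ.symm h
      rwa [map_zero, AlgEquiv.symm_apply_apply] at this)
  have h2 : (σ ζ - ζ) * (σ ζ * ζ - 1) = 0 := by
    field_simp at h1
    linear_combination h1
  rcases mul_eq_zero.1 h2 with h | h
  · left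
    have h4 : ∀ z : AlgebraicClosure ℚ, z ^ p = 1 → σ z = z ^ 1 := by
      intro z hz
      obtain ⟨i, -, rfl⟩ := hζ.eq_pow_of_pow_eq_one hz
      rw [map_pow, sub_eq_zero.1 h, pow_one]
    have := h3 σ 1 h4
    rw [Nat.cast_one] at this
    exact Units.ext this
  · right
    have h5 : σ ζ = ζ ^ (p - 1) := by
      have e1 : ζ * ζ ^ (p - 1) = 1 := by
        rw [← pow_succ', Nat.sub_add_cancel hp.out.one_lt.le, hζ.pow_eq_one]
      have e2 : ζ * σ ζ = 1 := by rw [mul_comm]; exact sub_eq_zero.1 h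
      exact mul_left_cancel₀ h0 (e2.trans e1.symm)
    have h4 : ∀ z : AlgebraicClosure ℚ, z ^ p = 1 → σ z = z ^ (p - 1) := by
      intro z hz
      obtain ⟨i, -, rfl⟩ := hζ.eq_pow_of_pow_eq_one hz
      rw [map_pow, h5, ← pow_mul, ← pow_mul, mul_comm]
    have := h3 σ (p - 1) h4
    apply Units.ext
    rw [this, Nat.cast_sub hp.out.one_lt.le, Nat.cast_one, ZMod.natCast_self, zero_sub, Units.val_neg,
      Units.val_one]

theorem inertia_pow {P : Ideal (OO ℚ)} {τ : GF ℚ} (h : InInertia P τ) (m : ℕ) : InInertia P (τ ^ m) := by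
  induction m with
  | zero => intro x; rw [pow_zero, one_smul, sub_self]; exact P.zero_mem
  | succ m ih =>
    intro x
    have h1 := ih (τ • x)
    have h2 := h x
    have h3 := P.add_mem h1 h2
    rw [sub_add_sub_cancel, ← mul_smul, ← pow_succ] at h3
    exact h3

/-- an invariant unramified homomorphism is trivial if it is trivial on the extensions -/
theorem inv_key {χ : GF ℚ →* (ZMod p)ˣ} (hχ : ∀ g, g ∈ fx (cyc ℚ p) ↔ χ g = 1)
    (U : Subgroup (GF ℚ)) (hNU : fx (cyc ℚ p) ≤ U)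
    (hU : ∀ f : U →* Multiplicative (ZMod p), IsOpen (f.ker : Set U) →
      (∀ P : Ideal (OO ℚ), P.IsMaximal → ∀ τ : U, InInertia P (τ : GF ℚ) → f τ = 1) → ∀ σ, f σ = 1)
    (h : fx (cyc ℚ p) →* Multiplicative (ZMod p)) (ho : IsOpen (h.ker : Set (fx (cyc ℚ p))))
    (hur : ∀ P : Ideal (OO ℚ), P.IsMaximal → ∀ τ : fx (cyc ℚ p), InInertia P (τ : GF ℚ) → h τ = 1)
    (hinv : ∀ σ ∈ U, ∀ τ : fx (cyc ℚ p), h (MulAut.conjNormal σ τ) = h τ) (m : ℕ)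
    (hm0 : (m : ZMod p) ≠ 0) (hm : ∀ σ ∈ U, σ ^ m ∈ fx (cyc ℚ p)) : ∀ σ, h σ = 1 := by
  obtain ⟨f, hf⟩ := ext_sub U hNU χ hχ h hinv m hm
  have hfN : ∀ σ : fx (cyc ℚ p), f ⟨σ, hNU σ.2⟩ = h σ ^ m := by
    intro σ
    rw [hf, ← map_pow]
    congr 1
  have hfo : IsOpen (f.ker : Set U) := by
    have h1 : IsOpen ((h.ker.map (fx (cyc ℚ p)).subtype : Subgroup (GF ℚ)) : Set (GF ℚ)) := by
      exact (fx_cyc_open (p := p)).isOpenEmbedding_subtypeVal.isOpenMap _ ho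
    have h2 : IsOpen (((h.ker.map (fx (cyc ℚ p)).subtype).subgroupOf U : Subgroup U) : Set U) :=
      h1.preimage continuous_subtype_val
    refine Subgroup.isOpen_mono ?_ h2
    intro σ hσ
    obtain ⟨τ, h3, h4⟩ := hσ
    have h4' : (τ : GF ℚ) = (σ : GF ℚ) := h4
    have h5 : σ = ⟨τ, hNU τ.2⟩ := Subtype.ext h4'.symm
    have h6 : h τ = 1 := h3
    rw [MonoidHom.mem_ker, h5, hfN, h6, one_pow]
  have hall := hU f hfo (by
    intro P hP τ hτ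
    rw [hf]
    exact hur P hP _ (inertia_pow hτ m))
  intro σ
  have h1 := hall ⟨σ, hNU σ.2⟩
  rw [hfN] at h1
  have h2 := congrArg Multiplicative.toAdd h1
  rw [toAdd_pow, toAdd_one, nsmul_eq_mul] at h2
  apply Multiplicative.toAdd.injective
  rw [toAdd_one]
  exact (mul_eq_zero.1 h2).resolve_left hm0

/-- `h` lies in the component `ω ^ (i - j)` -/
def Eig (χ : GF ℚ →* (ZMod p)ˣ) (i j : ℕ) (h : fx (cyc ℚ p) →* Multiplicative (ZMod p)) : Prop :=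
  ∀ (σ : GF ℚ) (τ : fx (cyc ℚ p)), ((χ σ : (ZMod p)ˣ) : ZMod p) ^ j *
    Multiplicative.toAdd (h (MulAut.conjNormal σ τ)) =
    ((χ σ : (ZMod p)ˣ) : ZMod p) ^ i * Multiplicative.toAdd (h τ)

/-- tame primes -/
theorem tame_eig {χ : GF ℚ →* (ZMod p)ˣ}
    (h3 : ∀ (g : GF ℚ) (w : ℕ), (∀ z : AlgebraicClosure ℚ, z ^ p = 1 → g z = z ^ w) →
      ((χ g : (ZMod p)ˣ) : ZMod p) = (w : ZMod p))
    {i j : ℕ} {h : fx (cyc ℚ p) →* Multiplicative (ZMod p)} (he : Eig χ i j h)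
    (ho : IsOpen (h.ker : Set (fx (cyc ℚ p)))) {l : ℕ} (hl : l.Prime) (hlp : l ≠ p)
    (hne : (l : ZMod p) ^ (j + 1) ≠ (l : ZMod p) ^ i) {Q : Ideal (OO ℚ)} (hQ : Q.IsMaximal)
    (hlQ : (l : OO ℚ) ∈ Q) {τ : fx (cyc ℚ p)} (hτ : InInertia Q (τ : GF ℚ)) : h τ = 1 := by
  obtain ⟨φ, hφ⟩ := Pool.Agent.W924.UF.frobp l hl Q hQ hlQ
  have hz := Pool.Agent.W924.UF.zeta.1 p l hp.out hl (Ne.symm hlp) Q hQ hlQ φ hφ
  have hχφ := h3 φ l hz
  have hfin : Finite (Multiplicative (ZMod p)) := by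
    have : NeZero p := ⟨hp.out.ne_zero⟩
    exact Finite.of_equiv _ Multiplicative.ofAdd
  have hpg : IsPGroup p (Multiplicative (ZMod p)) := by
    refine IsPGroup.iff_card.2 ⟨1, ?_⟩
    rw [Nat.card_congr Multiplicative.toAdd, Nat.card_zmod, pow_one]
  have h1 := tamen p l l hp.out hl (Ne.symm hlp) hl.one_lt.le (fx (cyc ℚ p)) fx_cyc_open
    (Multiplicative (ZMod p)) hpg h ho Q hQ hlQ τ φ hτ hφ
  have h2 := he φ τ
  have e : (MulAut.conjNormal φ τ : fx (cyc ℚ p)) = ⟨φ * τ * φ⁻¹, cyc_normal.conj_mem τ τ.2 φ⟩ :=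
    Subtype.ext (MulAut.conjNormal_apply _ _)
  rw [e, h1, toAdd_pow, nsmul_eq_mul, hχφ] at h2
  have h4 : ((l : ZMod p) ^ (j + 1) - (l : ZMod p) ^ i) * Multiplicative.toAdd (h τ) = 0 := by
    rw [pow_succ]
    linear_combination h2
  apply Multiplicative.toAdd.injective
  rw [toAdd_one]
  exact (mul_eq_zero.1 h4).resolve_left (sub_ne_zero.2 hne)

/-- inertia above `p` -/
theorem above_p {P₀ : Ideal (OO ℚ)} (hP₀ : P₀.IsMaximal) (hpP₀ : (p : OO ℚ) ∈ P₀)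
    {h : fx (cyc ℚ p) →* Multiplicative (ZMod p)}
    (hD : ∀ τ : fx (cyc ℚ p), (τ : GF ℚ) ∈ Dc P₀ → h τ = 1) {P : Ideal (OO ℚ)} (hP : P.IsMaximal)
    (hpP : (p : OO ℚ) ∈ P) {τ : fx (cyc ℚ p)} (hτ : InInertia P (τ : GF ℚ)) : h τ = 1 := by
  have hFROB : S_FROB := Pool.Agent.W571.FM.main
  obtain ⟨g, hg⟩ := (hFROB p hp.out).2 P₀ P hP₀ hP hpP₀ hpP
  have h1 := hg τ hτ
  obtain ⟨δ, hδ, hδg⟩ := one_prime hP₀ hpP₀ g⁻¹
  set u : GF ℚ := δ⁻¹ * g⁻¹ with hu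
  have h2 : InInertia P₀ (u * τ * u⁻¹) := by
    have h3 := inertia_conj h1 (inv_mem hδ)
    have e : δ⁻¹ * (g⁻¹ * (τ : GF ℚ) * g) * δ⁻¹⁻¹ = u * τ * u⁻¹ := by
      rw [hu]; group
    rwa [e] at h3
  let u' : (fx (cyc ℚ p)) := ⟨u, hδg⟩
  have h4 : h (u' * τ * u'⁻¹) = 1 := hD _ (inertia_mem h2)
  rw [map_mul, map_mul, map_inv, mul_comm (h u'), mul_inv_cancel_right] at h4
  exact h4

/-- from the generator to the group -/
theorem eig_of_gen {χ : GF ℚ →* (ZMod p)ˣ} (hχ : ∀ g, g ∈ fx (cyc ℚ p) ↔ χ g = 1)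
    {g : GF ℚ} (hg : ∀ x : (ZMod p)ˣ, x ∈ Subgroup.zpowers (χ g))
    (h : fx (cyc ℚ p) →* Multiplicative (ZMod p)) {b : ZMod p}
    (hb : ∀ σ, Multiplicative.toAdd (h (MulAut.conjNormal g σ)) = b * Multiplicative.toAdd (h σ))
    {i j : ℕ} (hij : ((χ g : (ZMod p)ˣ) : ZMod p) ^ j * b = ((χ g : (ZMod p)ˣ) : ZMod p) ^ i) :
    Eig χ i j h := by
  intro σ τ
  have : NeZero p := ⟨hp.out.ne_zero⟩
  obtain ⟨k, hk⟩ := (mem_powers_iff_mem_zpowers.2 (hg (χ σ)))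
  have hk' : χ g ^ k = χ σ := hk
  have hu : σ * (g ^ k)⁻¹ ∈ fx (cyc ℚ p) := by
    rw [hχ, map_mul, map_inv, map_pow, hk', mul_inv_cancel]
  have e : (MulAut.conjNormal σ τ : fx (cyc ℚ p)) =
      MulAut.conjNormal (σ * (g ^ k)⁻¹) (MulAut.conjNormal (g ^ k) τ) := by
    rw [← MulAut.mul_apply, ← map_mul, inv_mul_cancel_right]
  rw [e, conj_self_N h hu, conj_pow_eig h hb, ← hk', Units.val_pow_eq_pow_val, ← mul_assoc,
    ← pow_mul, ← pow_mul, mul_comm k j, mul_comm k i, pow_mul, pow_mul, ← mul_pow, hij]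

end

end Pool.Agent.W5h93.FMQ
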