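import Pool.Agent.W5h93.FMP.Grp

/-! Density of a subgroup in the images of residually reducible representations, by means of
eigenvectors for the conjugation with an element of the subgroup. -/

set_option autoImplicit false
set_option linter.all false

namespace Pool.Agent.W5h93.FMQ

open Pool.Agent.Z384 IsLocalRing Matrix Pool.Agent.W5h93.FMP

section dense

variable {A : Type*} [CommRing A] [IsLocalRing A] [IsNoetherianRing A] {n : ℕ} {p : ℕ} [hp : Fact p.Prime]
variable {G : Type*} [Group G]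

/-- **Density.** -/
theorem dense2 [TopologicalSpace G] [IsTopologicalGroup G] [TopologicalSpace A]
    (hA : IsAdic (maximalIdeal A)) (hfin : Finite (ResidueField A)) (hpA : (p : A) ∈ maximalIdeal A)
    {ρ : G →* GL (Fin n) A} (hρ : ∀ i j, Continuous fun σ => (ρ σ : Matrix (Fin n) (Fin n) A) i j)
    (H D : Subgroup G) (hDH : ∀ g, ∃ δ ∈ D, δ⁻¹ * g ∈ H)
    (hres : ∀ σ ∈ H, ∃ N : ℕ, InI (maximalIdeal A) (((ρ σ : Matrix (Fin n) (Fin n) A) - 1) ^ N))
    (m : ℕ)
    (hkey : ∀ h : H →* Multiplicative (ZMod p), (∀ σ : H, (σ : G) ∈ cong ρ m → h σ = 1) →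
      (∀ σ : H, (σ : G) ∈ D → h σ = 1) → ∀ σ, h σ = 1)
    (g : G) : ∃ δ ∈ D, δ⁻¹ * g ∈ cong ρ m := by
  set ρH : H →* GL (Fin n) A := ρ.comp H.subtype with hρH
  have hρH' : ∀ i j, Continuous fun σ => (ρH σ : Matrix (Fin n) (Fin n) A) i j := fun i j =>
    (hρ i j).comp continuous_subtype_val
  obtain ⟨b, hb⟩ := cong_idx hpA hfin ρH (fun σ => hres σ σ.2) m
  have hUn : (cong ρH m).Normal := cong_normal ρH m
  have hUf : (cong ρH m).FiniteIndex := ⟨by rw [hb]; exact (pow_pos hp.out.pos b).ne'⟩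
  have hfinq : Finite (H ⧸ cong ρH m) := inferInstance
  have main : ∀ h : H, ∃ δ : H, (δ : G) ∈ D ∧ δ⁻¹ * h ∈ cong ρH m := by
    intro h
    set Q : Subgroup (H ⧸ cong ρH m) := (D.subgroupOf H).map (QuotientGroup.mk' _) with hQ
    by_cases hQt : Q = ⊤
    · have h1 : (QuotientGroup.mk' (cong ρH m) h) ∈ Q := by rw [hQt]; trivial
      obtain ⟨δ, hδ, hδg⟩ := h1
      exact ⟨δ, Subgroup.mem_subgroupOf.1 hδ, QuotientGroup.eq.1 hδg⟩
    · exfalso
      obtain ⟨f, hf, x, hx⟩ := exists_char (P := H ⧸ cong ρH m) (a := b) hb hQt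
      obtain ⟨σ, rfl⟩ := QuotientGroup.mk'_surjective _ x
      apply hx
      refine hkey (f.comp (QuotientGroup.mk' _)) ?_ ?_ σ
      · intro τ hτ
        have hτ' : τ ∈ cong ρH m := by
          rw [mem_cong] at hτ ⊢
          exact hτ
        have : QuotientGroup.mk' (cong ρH m) τ = 1 := (QuotientGroup.eq_one_iff τ).2 hτ'
        show f (QuotientGroup.mk' (cong ρH m) τ) = 1
        rw [this, map_one]
      · intro τ hτ
        exact hf _ ⟨τ, Subgroup.mem_subgroupOf.2 hτ, rfl⟩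
  obtain ⟨δ₀, hδ₀, h₀⟩ := hDH g
  obtain ⟨δ, hδ, hδh⟩ := main ⟨δ₀⁻¹ * g, h₀⟩
  refine ⟨δ₀ * δ, mul_mem hδ₀ hδ, ?_⟩
  have e : (δ₀ * δ)⁻¹ * g = ((δ⁻¹ * ⟨δ₀⁻¹ * g, h₀⟩ : H) : G) := by
    simp only [Subgroup.coe_mul, Subgroup.coe_inv, _root_.mul_inv_rev, mul_assoc]
  rw [e]
  exact hδh

end dense

section proj

variable {p : ℕ} [hp : Fact p.Prime] {G : Type*} [Group G] {N : Subgroup G} [hN : N.Normal]

/-- the projection of a homomorphism to an eigenspace of the conjugation by `g` -/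
noncomputable def pr (g : G) (h : N →* Multiplicative (ZMod p)) (a : (ZMod p)ˣ) :
    N →* Multiplicative (ZMod p) where
  toFun σ := Multiplicative.ofAdd (∑ i ∈ Finset.range (p - 1), ((a : ZMod p)) ^ i *
    Multiplicative.toAdd (h (MulAut.conjNormal (g ^ i) σ)))
  map_one' := by
    simp
  map_mul' := by
    intro σ τ
    rw [← ofAdd_add, ← Finset.sum_add_distrib]
    congr 1
    refine Finset.sum_congr rfl fun i _ => ?_
    rw [map_mul, map_mul, toAdd_mul, mul_add]

theorem pr_apply (g : G) (h : N →* Multiplicative (ZMod p)) (a : (ZMod p)ˣ) (σ : N) :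
    Multiplicative.toAdd (pr g h a σ) = ∑ i ∈ Finset.range (p - 1), ((a : ZMod p)) ^ i *
    Multiplicative.toAdd (h (MulAut.conjNormal (g ^ i) σ)) := rfl

theorem conj_self_N (h : N →* Multiplicative (ZMod p)) {u : G} (hu : u ∈ N) (σ : N) :
    h (MulAut.conjNormal u σ) = h σ := by
  have e : MulAut.conjNormal u σ = (⟨u, hu⟩ : N) * σ * (⟨u, hu⟩ : N)⁻¹ := by
    apply Subtype.ext
    rw [MulAut.conjNormal_apply]
    rfl
  rw [e, map_mul, map_mul, map_inv, mul_comm (h ⟨u, hu⟩), mul_inv_cancel_right]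

theorem pr_eig {g : G} (hg : g ^ (p - 1) ∈ N) (h : N →* Multiplicative (ZMod p)) (a : (ZMod p)ˣ) (σ : N) :
    Multiplicative.toAdd (pr g h a (MulAut.conjNormal g σ)) =
      ((a⁻¹ : (ZMod p)ˣ) : ZMod p) * Multiplicative.toAdd (pr g h a σ) := by
  set F : ℕ → ZMod p := fun i => (a : ZMod p) ^ i *
    Multiplicative.toAdd (h (MulAut.conjNormal (g ^ i) σ)) with hF
  have h1 : ∀ i, (a : ZMod p) ^ i *
      Multiplicative.toAdd (h (MulAut.conjNormal (g ^ i) (MulAut.conjNormal g σ))) =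
      ((a⁻¹ : (ZMod p)ˣ) : ZMod p) * F (i + 1) := by
    intro i
    rw [← MulAut.mul_apply, ← map_mul, ← pow_succ]
    show _ = ((a⁻¹ : (ZMod p)ˣ) : ZMod p) * ((a : ZMod p) ^ (i + 1) * _)
    rw [pow_succ (a : ZMod p) i, ← mul_assoc]
    congr 1
    rw [mul_comm ((a : ZMod p) ^ i), ← mul_assoc, ← Units.val_mul, inv_mul_cancel, Units.val_one,
      one_mul]
  have h2 : F (p - 1) = F 0 := by
    show (a : ZMod p) ^ (p - 1) * Multiplicative.toAdd (h (MulAut.conjNormal (g ^ (p - 1)) σ)) =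
      (a : ZMod p) ^ 0 * Multiplicative.toAdd (h (MulAut.conjNormal (g ^ 0) σ))
    rw [conj_self_N h hg, ZMod.pow_card_sub_one_eq_one a.ne_zero, pow_zero, pow_zero, map_one,
      MulAut.one_apply]
  rw [pr_apply, pr_apply, Finset.sum_congr rfl fun i _ => h1 i, ← Finset.mul_sum]
  congr 1
  have h3 := Finset.sum_range_succ' F (p - 1)
  rw [Finset.sum_range_succ, h2] at h3
  exact (add_right_cancel h3).symm

/-- **Projection**: it suffices to consider eigenvectors. -/
theorem of_eig {g : G} (hg : g ^ (p - 1) ∈ N) (V : (N →* Multiplicative (ZMod p)) → Prop)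
    (hV : ∀ h a, V h → V (pr g h a))
    (hE : ∀ h, V h → ∀ b : (ZMod p)ˣ, (∀ σ, Multiplicative.toAdd (h (MulAut.conjNormal g σ)) =
      (b : ZMod p) * Multiplicative.toAdd (h σ)) → ∀ σ, h σ = 1)
    (h : N →* Multiplicative (ZMod p)) (hh : V h) (σ : N) : h σ = 1 := by
  classical
  have h1 : ∀ a : (ZMod p)ˣ, Multiplicative.toAdd (pr g h a σ) = 0 := by
    intro a
    rw [hE _ (hV h a hh) a⁻¹ (pr_eig hg h a) σ, toAdd_one]
  have h2 : ∑ a : (ZMod p)ˣ, Multiplicative.toAdd (pr g h a σ) = 0 :=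
    Finset.sum_eq_zero fun a _ => h1 a
  simp only [pr_apply] at h2
  rw [Finset.sum_comm] at h2
  have h3 : ∀ i ∈ Finset.range (p - 1), ∑ a : (ZMod p)ˣ, (a : ZMod p) ^ i *
      Multiplicative.toAdd (h (MulAut.conjNormal (g ^ i) σ)) =
      if i = 0 then - Multiplicative.toAdd (h σ) else 0 := by
    intro i hi
    rw [← Finset.sum_mul]
    have h4 := FiniteField.sum_pow_units (ZMod p) i
    rw [ZMod.card] at h4
    have h5 : ∑ a : (ZMod p)ˣ, (a : ZMod p) ^ i = if p - 1 ∣ i then -1 else 0 := by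
      rw [← h4]
    rw [h5]
    by_cases hi0 : i = 0
    · subst hi0
      rw [if_pos (dvd_zero _), if_pos rfl, pow_zero, map_one, MulAut.one_apply, neg_one_mul]
    · rw [if_neg, if_neg hi0, zero_mul]
      intro hd
      have := Nat.le_of_dvd (Nat.pos_of_ne_zero hi0) hd
      have := Finset.mem_range.1 hi
      omega
  rw [Finset.sum_congr rfl h3, Finset.sum_ite_eq' (Finset.range (p - 1)) 0, if_pos] at h2
  · apply Multiplicative.toAdd.injective
    rw [toAdd_one]
    exact neg_eq_zero.1 h2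
  · rw [Finset.mem_range]
    have := hp.out.one_lt
    omega

end proj

section alg

variable {B : Type*} [CommRing B]

theorem mat_id (X u : Matrix (Fin 2) (Fin 2) B) :
    X.det • (X ^ 4 * u) - (X.trace ^ 2) • (X ^ 3 * u * X) +
      (2 * (X.trace ^ 2 - X.det)) • (X ^ 2 * u * X ^ 2) - (X.trace ^ 2) • (X * u * X ^ 3) +
      X.det • (u * X ^ 4) = 0 := by
  have h : X ^ 2 = X.trace • X - X.det • (1 : Matrix (Fin 2) (Fin 2) B) := by
    ext i j
    fin_cases i <;> fin_cases j <;>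
      simp [pow_two, Matrix.mul_apply, Fin.sum_univ_two, Matrix.trace_fin_two, Matrix.det_fin_two] <;>
      ring
  set t := X.trace
  set d := X.det
  have h3 : X ^ 3 = (t ^ 2 - d) • X - (t * d) • (1 : Matrix (Fin 2) (Fin 2) B) := by
    rw [pow_succ, h, sub_mul, smul_mul_assoc, smul_mul_assoc, one_mul, ← pow_two, h]
    module
  have h4 : X ^ 4 = (t ^ 3 - 2 * t * d) • X - (t ^ 2 * d - d ^ 2) • (1 : Matrix (Fin 2) (Fin 2) B) := by
    rw [pow_succ, h3, sub_mul, smul_mul_assoc, smul_mul_assoc, one_mul, ← pow_two, h]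
    module
  rw [h4, h3, h]
  simp only [sub_mul, mul_sub, smul_mul_assoc, mul_smul_comm, one_mul, mul_one, smul_sub, smul_smul]
  module

end alg

end Pool.Agent.W5h93.FMQ
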