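import Pool.Agent.W5h93.FMQ.Arith

/-! The inertia group at a prime above `p`: the field of the `p`-th roots of unity is totally
ramified; compactness. -/

set_option autoImplicit false
set_option linter.all false

namespace Pool.Agent.W5h93.FMQ

open NumberField Pool.Agent.W569.FM Pool.Agent.W569.UF Pool.Agent.W134.FM Pool.Agent.W5h93.FMP
open Pool.Agent.Z384 IsLocalRing Matrix

/-- the inertia group as a subgroup -/
def Ic (P : Ideal (OO ℚ)) : Subgroup (GF ℚ) where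
  carrier := {g | ∀ x : OO ℚ, g • x - x ∈ P}
  mul_mem' := by
    intro a b ha hb x
    have h1 := P.add_mem (ha (b • x)) (hb x)
    rw [sub_add_sub_cancel, ← mul_smul] at h1
    exact h1
  one_mem' := by
    intro x
    rw [one_smul, sub_self]
    exact P.zero_mem
  inv_mem' := by
    intro a ha x
    have h1 := P.neg_mem (ha (a⁻¹ • x))
    rw [smul_inv_smul, neg_sub] at h1
    exact h1

theorem mem_Ic {P : Ideal (OO ℚ)} {g : GF ℚ} : g ∈ Ic P ↔ InInertia P g := Iff.rfl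

theorem Ic_closed (P : Ideal (OO ℚ)) : IsClosed (Ic P : Set (GF ℚ)) := by
  have e : (Ic P : Set (GF ℚ)) = ⋂ x : OO ℚ, {g : GF ℚ | g • x - x ∈ P} := by
    ext g
    rw [Set.mem_iInter]
    rfl
  rw [e]
  refine isClosed_iInter fun x => ?_
  rw [← isOpen_compl_iff, isOpen_iff_mem_nhds]
  intro g hg
  have ho : IsOpen ((fun τ : GF ℚ => g⁻¹ * τ) ⁻¹'
      (MulAction.stabilizer (GF ℚ) (x : AlgebraicClosure ℚ) : Set (GF ℚ))) :=
    (isOpen_stab (x : AlgebraicClosure ℚ)).preimage (continuous_const.mul continuous_id)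
  refine Filter.mem_of_superset (ho.mem_nhds ?_) ?_
  · show g⁻¹ * g ∈ MulAction.stabilizer (GF ℚ) (x : AlgebraicClosure ℚ)
    rw [inv_mul_cancel]
    exact one_mem _
  · intro τ hτ hτ2
    apply hg
    have h1 : (g⁻¹ * τ) • (x : AlgebraicClosure ℚ) = (x : AlgebraicClosure ℚ) := hτ
    have h2 : (g⁻¹ * τ) • x = x := RingOfIntegers.ext h1
    have h3 : τ • x = g • x := by
      rw [mul_smul, inv_smul_eq_iff] at h2
      exact h2
    show g • x - x ∈ P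
    rw [← h3]
    exact hτ2

section

variable {p : ℕ} [hp : Fact p.Prime]

/-- total ramification -/
theorem one_prime_in {P₀ : Ideal (OO ℚ)} (hP₀ : P₀.IsMaximal) (hpP₀ : (p : OO ℚ) ∈ P₀) (g : GF ℚ) :
    ∃ δ ∈ Ic P₀, δ⁻¹ * g ∈ fx (cyc ℚ p) := by
  have hGEN : S_GEN := Pool.Agent.W215.FM.main
  have hFROB : S_FROB := Pool.Agent.W571.FM.main
  obtain ⟨χ, hker, hχ2, hχ3, hsur, ζ, hζ⟩ := exists_chi p
  let E := (ZMod p)ˣ ⧸ ((Ic P₀).map χ)
  let f : GF ℚ →* E := (QuotientGroup.mk' ((Ic P₀).map χ)).comp χ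
  have hf0 : ∀ g, χ g ∈ (Ic P₀).map χ → f g = 1 := fun g hg => (QuotientGroup.eq_one_iff (χ g)).2 hg
  have hopen : IsOpen (f.ker : Set (GF ℚ)) := by
    refine Subgroup.isOpen_mono (H₁ := fx (cyc ℚ p)) ?_ fx_cyc_open
    intro g hg
    apply hf0
    rw [(hker g).1 hg]
    exact one_mem _
  have hall := hGEN E f hopen (by
    intro P hP τ hτ
    by_cases hpP : (p : OO ℚ) ∈ P
    · obtain ⟨g, hg⟩ := (hFROB p hp.out).2 P₀ P hP₀ hP hpP₀ hpP
      have h1 := hg τ hτ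
      apply hf0
      refine ⟨_, h1, ?_⟩
      rw [map_mul, map_mul, map_inv]
      rw [mul_comm ((χ g)⁻¹), inv_mul_cancel_right]
    · apply hf0
      rw [(hker τ).1 (inertia_fix hP hpP hτ)]
      exact one_mem _) g
  obtain ⟨δ, hδ, hδg⟩ := (QuotientGroup.eq_one_iff (χ g)).1 hall
  refine ⟨δ, hδ, ?_⟩
  rw [hker, map_mul, map_inv, hδg, inv_mul_cancel]

/-- inertia above `p` -/
theorem above_p_in {P₀ : Ideal (OO ℚ)} (hP₀ : P₀.IsMaximal) (hpP₀ : (p : OO ℚ) ∈ P₀)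
    {h : fx (cyc ℚ p) →* Multiplicative (ZMod p)}
    (hD : ∀ τ : fx (cyc ℚ p), (τ : GF ℚ) ∈ Ic P₀ → h τ = 1) {P : Ideal (OO ℚ)} (hP : P.IsMaximal)
    (hpP : (p : OO ℚ) ∈ P) {τ : fx (cyc ℚ p)} (hτ : InInertia P (τ : GF ℚ)) : h τ = 1 := by
  have hFROB : S_FROB := Pool.Agent.W571.FM.main
  obtain ⟨g, hg⟩ := (hFROB p hp.out).2 P₀ P hP₀ hP hpP₀ hpP
  have h1 := hg τ hτ
  obtain ⟨δ, hδ, hδg⟩ := one_prime hP₀ hpP₀ g⁻¹
  set u : GF ℚ := δ⁻¹ * g⁻¹ with hu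
  have h2 : InInertia P₀ (u * τ * u⁻¹) := by
    have h3 := inertia_conj h1 (inv_mem hδ)
    have e : δ⁻¹ * (g⁻¹ * (τ : GF ℚ) * g) * δ⁻¹⁻¹ = u * τ * u⁻¹ := by
      rw [hu]; group
    rwa [e] at h3
  let u' : (fx (cyc ℚ p)) := ⟨u, hδg⟩
  have h4 : h (u' * τ * u'⁻¹) = 1 := hD _ h2
  rw [map_mul, map_mul, map_inv, mul_comm (h u'), mul_inv_cancel_right] at h4
  exact h4

end

/-- from density to surjectivity -/
theorem surj_of_dense {A : Type*} [CommRing A] [IsLocalRing A] [IsNoetherianRing A]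
    [TopologicalSpace A] {n : ℕ} (hA : IsAdic (maximalIdeal A)) {ρ : GF ℚ →* GL (Fin n) A}
    (hρ : ∀ i j, Continuous fun σ => (ρ σ : Matrix (Fin n) (Fin n) A) i j) (P : Ideal (OO ℚ))
    (happ : ∀ (m : ℕ) (g : GF ℚ), ∃ δ ∈ Ic P, δ⁻¹ * g ∈ cong ρ m) (g : GF ℚ) :
    ∃ δ ∈ Ic P, ρ δ = ρ g := by
  let T : ℕ → Set (GF ℚ) := fun m => {δ | δ ∈ Ic P ∧ δ⁻¹ * g ∈ cong ρ m}
  have hTc : ∀ m, IsClosed (T m) := by
    intro m
    refine IsClosed.inter (Ic_closed P) ?_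
    have h1 : IsClosed (cong ρ m : Set (GF ℚ)) := Subgroup.isClosed_of_isOpen _ (cong_open hA hρ m)
    exact h1.preimage (continuous_inv.mul continuous_const)
  have hmono : ∀ m, T (m + 1) ⊆ T m := by
    rintro m δ ⟨h1, h2⟩
    refine ⟨h1, ?_⟩
    rw [mem_cong] at h2 ⊢
    exact h2.mono (Ideal.pow_le_pow_right (Nat.le_succ m))
  have hne : (⋂ m, T m).Nonempty := by
    refine IsCompact.nonempty_iInter_of_sequence_nonempty_isCompact_isClosed T hmono ?_ ?_ hTc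
    · intro m
      obtain ⟨δ, h1, h2⟩ := happ m g
      exact ⟨δ, h1, h2⟩
    · exact (hTc 0).isCompact
  obtain ⟨δ, hδ⟩ := hne
  have hδ' : ∀ m, δ ∈ T m := fun m => Set.mem_iInter.1 hδ m
  refine ⟨δ, (hδ' 0).1, ?_⟩
  have h1 : ((ρ (δ⁻¹ * g) : GL (Fin n) A) : Matrix (Fin n) (Fin n) A) - 1 = 0 := by
    ext i j
    have h2 : (((ρ (δ⁻¹ * g) : GL (Fin n) A) : Matrix (Fin n) (Fin n) A) - 1) i j ∈
        (⨅ m : ℕ, maximalIdeal A ^ m : Ideal A) := by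
      rw [Ideal.mem_iInf]
      intro m
      exact mem_cong.1 (hδ' m).2 i j
    rw [Ideal.iInf_pow_eq_bot_of_isLocalRing _ (Ideal.IsPrime.ne_top inferInstance)] at h2
    exact h2
  have h2 : ρ (δ⁻¹ * g) = 1 := Units.ext (sub_eq_zero.1 h1)
  rw [map_mul, map_inv] at h2
  exact inv_mul_eq_one.1 h2

end Pool.Agent.W5h93.FMQ
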