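import Pool.Agent.W5h93.FMQ.Step

/-! Descent through the layers `1 + M₂(𝔪 ^ m)`. -/

set_option autoImplicit false
set_option linter.all false

namespace Pool.Agent.W5h93.FMQ

open Pool.Agent.Z384 IsLocalRing Matrix Pool.Agent.W5h93.FMP

section field

theorem unip_field {k : Type*} [Field k] (a b : Matrix (Fin 2) (Fin 2) k) (ha : a.trace = 0)
    (ha' : a.det = 0) (hb : b.trace = 0) (hb' : b.det = 0) (hab : (a * b).trace = 0) : a * b = 0 := by
  rw [Matrix.trace_fin_two] at ha hb hab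
  rw [Matrix.det_fin_two] at ha' hb'
  rw [Matrix.mul_apply, Matrix.mul_apply, Fin.sum_univ_two, Fin.sum_univ_two] at hab
  have hw : a 1 1 = - a 0 0 := by linear_combination ha
  have hw' : b 1 1 = - b 0 0 := by linear_combination hb
  rw [hw] at ha' hab
  rw [hw'] at hb' hab
  have h0 : ∀ x : k, x ^ 2 = 0 → x = 0 := fun x hx => pow_eq_zero_iff (two_ne_zero) |>.1 hx
  ext i j
  rw [Matrix.mul_apply, Fin.sum_univ_two]
  fin_cases i <;> fin_cases j
  · show a 0 0 * b 0 0 + a 0 1 * b 1 0 = 0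
    apply h0
    linear_combination (a 0 1 * b 1 0) * hab - (b 0 0) ^ 2 * ha' + a 0 1 * a 1 0 * hb'
  · show a 0 0 * b 0 1 + a 0 1 * b 1 1 = 0
    rw [hw']
    apply h0
    linear_combination (- a 0 1 * b 0 1) * hab - (b 0 1) ^ 2 * ha' - (a 0 1) ^ 2 * hb'
  · show a 1 0 * b 0 0 + a 1 1 * b 1 0 = 0
    rw [hw]
    apply h0
    linear_combination (- a 1 0 * b 1 0) * hab - (b 1 0) ^ 2 * ha' - (a 1 0) ^ 2 * hb'
  · show a 1 0 * b 0 1 + a 1 1 * b 1 1 = 0
    rw [hw, hw']
    apply h0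
    linear_combination (a 1 0 * b 0 1) * hab - (b 0 0) ^ 2 * ha' + a 0 1 * a 1 0 * hb'

end field

section layers

variable {A : Type*} [CommRing A]

theorem inI_iff (J : Ideal A) (Z : Matrix (Fin 2) (Fin 2) A) :
    InI J Z ↔ (Ideal.Quotient.mk J).mapMatrix Z = 0 := by
  constructor
  · intro h
    ext i j
    exact Ideal.Quotient.eq_zero_iff_mem.2 (h i j)
  · intro h i j
    exact Ideal.Quotient.eq_zero_iff_mem.1 (congrFun (congrFun h i) j)

variable [IsLocalRing A]

/-- two elements with unipotent reductions, and unipotent product -/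
theorem unip_mul {Y Z : Matrix (Fin 2) (Fin 2) A} (hY : Y.trace - 2 ∈ maximalIdeal A)
    (hY' : Y.det - 1 ∈ maximalIdeal A) (hZ : Z.trace - 2 ∈ maximalIdeal A)
    (hZ' : Z.det - 1 ∈ maximalIdeal A) (hYZ : (Y * Z).trace - 2 ∈ maximalIdeal A) :
    InI (maximalIdeal A) ((Y - 1) * (Z - 1)) := by
  have hf : ∀ x : A, x ∈ maximalIdeal A ↔ residue A x = 0 := fun x => (residue_eq_zero_iff x).symm
  have key : (residue A).mapMatrix (Y - 1) * (residue A).mapMatrix (Z - 1) = 0 := by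
    have tr1 : ∀ W : Matrix (Fin 2) (Fin 2) A, ((residue A).mapMatrix W).trace = residue A W.trace := by
      intro W
      rw [Matrix.trace_fin_two, Matrix.trace_fin_two, map_add]
      rfl
    have dt1 : ∀ W : Matrix (Fin 2) (Fin 2) A, ((residue A).mapMatrix W).det = residue A W.det := by
      intro W
      rw [Matrix.det_fin_two, Matrix.det_fin_two, map_sub, map_mul, map_mul]
      rfl
    have a1 : ∀ W : Matrix (Fin 2) (Fin 2) A, (W - 1).trace = W.trace - 2 := by
      intro W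
      rw [Matrix.trace_sub, Matrix.trace_one, Fintype.card_fin, Nat.cast_ofNat]
    have a2 : ∀ W : Matrix (Fin 2) (Fin 2) A, (W - 1).det = (W.det - 1) - (W.trace - 2) := by
      intro W
      simp [Matrix.trace_fin_two, Matrix.det_fin_two]
      ring
    apply unip_field
    · rw [tr1, a1, ← hf]; exact hY
    · rw [dt1, a2, ← hf]; exact Ideal.sub_mem _ hY' hY
    · rw [tr1, a1, ← hf]; exact hZ
    · rw [dt1, a2, ← hf]; exact Ideal.sub_mem _ hZ' hZ
    · rw [← map_mul, tr1, ← hf]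
      have : ((Y - 1) * (Z - 1)).trace = ((Y * Z).trace - 2) - (Y.trace - 2) - (Z.trace - 2) := by
        have e : (Y - 1) * (Z - 1) = Y * Z - Y - Z + 1 := by noncomm_ring
        rw [e, Matrix.trace_add, Matrix.trace_sub, Matrix.trace_sub, Matrix.trace_one, Fintype.card_fin]
        push_cast
        ring
      rw [this]
      exact Ideal.sub_mem _ (Ideal.sub_mem _ hYZ hY) hZ
  rw [← map_mul] at key
  intro i j
  rw [hf]
  exact congrFun (congrFun key i) j

variable [IsNoetherianRing A]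
variable {p : ℕ} [hp : Fact p.Prime] {G : Type*} [Group G] {N : Subgroup G} [hN : N.Normal]

theorem layers (ρ : G →* GL (Fin 2) A) (g : G) (α β : ℕ)
    (htr : (ρ g : Matrix (Fin 2) (Fin 2) A).trace - (α + β) ∈ maximalIdeal A)
    (hdet : (ρ g : Matrix (Fin 2) (Fin 2) A).det - α * β ∈ maximalIdeal A)
    (hun : ∀ σ ∈ N, (ρ σ : Matrix (Fin 2) (Fin 2) A).trace - 2 ∈ maximalIdeal A ∧
      (ρ σ : Matrix (Fin 2) (Fin 2) A).det - 1 ∈ maximalIdeal A)
    (h : N →* Multiplicative (ZMod p)) (b : ZMod p)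
    (hb : ∀ σ, Multiplicative.toAdd (h (MulAut.conjNormal g σ)) = b * Multiplicative.toAdd (h σ))
    (hP : (b - 1) ^ 2 * (α * b - β) * (β * b - α) ≠ 0) (m : ℕ) :
    (∀ σ : N, (σ : G) ∈ cong ρ m → h σ = 1) → ∀ σ, h σ = 1 := by
  induction m with
  | zero =>
    intro hm σ
    refine hm σ (mem_cong.2 fun i j => ?_)
    rw [pow_zero, Ideal.one_eq_top]
    trivial
  | succ m ih =>
    intro hm
    refine ih fun σ hσ => ?_
    set J : Ideal A := maximalIdeal A ^ (m + 1) with hJ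
    set π := (Ideal.Quotient.mk J) with hπ
    let ρ' : G →* GL (Fin 2) (A ⧸ J) := (GeneralLinearGroup.map (n := Fin 2) π).comp ρ
    have hρ' : ∀ σ, (ρ' σ : Matrix (Fin 2) (Fin 2) (A ⧸ J)) = π.mapMatrix (ρ σ : Matrix (Fin 2) (Fin 2) A) :=
      fun σ => rfl
    have hρ1 : ∀ σ, (ρ' σ : Matrix (Fin 2) (Fin 2) (A ⧸ J)) - 1 =
        π.mapMatrix ((ρ σ : Matrix (Fin 2) (Fin 2) A) - 1) := by
      intro σ
      rw [hρ', map_sub, map_one]
    have htr' : (ρ' g : Matrix (Fin 2) (Fin 2) (A ⧸ J)).trace =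
        π (ρ g : Matrix (Fin 2) (Fin 2) A).trace := by
      rw [hρ', Matrix.trace_fin_two, Matrix.trace_fin_two, map_add]
      rfl
    have hdet' : (ρ' g : Matrix (Fin 2) (Fin 2) (A ⧸ J)).det =
        π (ρ g : Matrix (Fin 2) (Fin 2) A).det := by
      rw [hρ', Matrix.det_fin_two, Matrix.det_fin_two, map_sub, map_mul, map_mul]
      rfl
    have hMm : ∀ τ ∈ (N ⊓ cong ρ m : Subgroup G), InI (maximalIdeal A ^ m)
        ((ρ τ : Matrix (Fin 2) (Fin 2) A) - 1) := fun τ hτ => mem_cong.1 (Subgroup.mem_inf.1 hτ).2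
    have hsm : ∀ x ∈ maximalIdeal A, ∀ τ ∈ (N ⊓ cong ρ m : Subgroup G),
        (π x) • ((ρ' τ : Matrix (Fin 2) (Fin 2) (A ⧸ J)) - 1) = 0 := by
      intro x hx τ hτ
      rw [hρ1]
      ext i j
      rw [Matrix.smul_apply, smul_eq_mul]
      show π x * π (((ρ τ : Matrix (Fin 2) (Fin 2) A) - 1) i j) = 0
      rw [← map_mul]
      refine Ideal.Quotient.eq_zero_iff_mem.2 ?_
      rw [hJ, pow_succ']
      exact Ideal.mul_mem_mul hx (hMm τ hτ i j)
    have hadd : ∀ τ ∈ (N ⊓ cong ρ m : Subgroup G), ∀ τ' ∈ (N ⊓ cong ρ m : Subgroup G),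
        ((ρ' τ : Matrix (Fin 2) (Fin 2) (A ⧸ J)) - 1) *
          ((ρ' τ' : Matrix (Fin 2) (Fin 2) (A ⧸ J)) - 1) = 0 := by
      intro τ hτ τ' hτ'
      rw [hρ1, hρ1, ← map_mul, ← inI_iff]
      rcases Nat.eq_zero_or_pos m with hm0 | hm0
      · subst hm0
        rw [hJ, zero_add, pow_one]
        have h1 := (Subgroup.mem_inf.1 hτ).1
        have h2 := (Subgroup.mem_inf.1 hτ').1
        refine unip_mul (hun τ h1).1 (hun τ h1).2 (hun τ' h2).1 (hun τ' h2).2 ?_
        have := (hun (τ * τ') (mul_mem h1 h2)).1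
        rwa [map_mul, Units.val_mul] at this
      · have := InI.mul (hMm τ hτ) (hMm τ' hτ')
        refine this.mono ?_
        rw [← pow_add]
        exact Ideal.pow_le_pow_right (by omega)
    have hp0 := eig_step (p := p) (N := N) ρ' (N ⊓ cong ρ m) g (fun τ hτ => ?_) hadd α β ?_ ?_ h b hb ?_ σ
      (Subgroup.mem_inf.2 ⟨σ.2, hσ⟩)
    · apply Multiplicative.toAdd.injective
      rw [toAdd_one]
      exact (mul_eq_zero.1 hp0).resolve_left hP
    · refine Subgroup.mem_inf.2 ⟨hN.conj_mem _ (Subgroup.mem_inf.1 hτ).1 _, ?_⟩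
      exact (cong_normal ρ m).conj_mem _ (Subgroup.mem_inf.1 hτ).2 _
    · intro τ hτ
      have h1 : (ρ g : Matrix (Fin 2) (Fin 2) A).trace ^ 2 - (α + β) ^ 2 ∈ maximalIdeal A := by
        have e : (ρ g : Matrix (Fin 2) (Fin 2) A).trace ^ 2 - ((α : A) + β) ^ 2 =
          ((ρ g : Matrix (Fin 2) (Fin 2) A).trace - (α + β)) *
          ((ρ g : Matrix (Fin 2) (Fin 2) A).trace + (α + β)) := by ring
        rw [e]
        exact Ideal.mul_mem_right _ _ htr
      have h2 := hsm _ h1 τ hτ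
      rw [map_sub, sub_smul, sub_eq_zero] at h2
      rw [htr', ← map_pow, h2]
      simp only [map_pow, map_add, map_natCast]
    · intro τ hτ
      have h2 := hsm _ hdet τ hτ
      rw [map_sub, sub_smul, sub_eq_zero] at h2
      rw [hdet', h2]
      simp only [map_mul, map_natCast]
    · intro τ hτ hτ1
      refine hm τ (mem_cong.2 ?_)
      rw [inI_iff]
      have := hρ1 (τ : G)
      rw [hτ1, Units.val_one, sub_self] at this
      exact this.symm

end layers

end Pool.Agent.W5h93.FMQ
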