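import Pool.Agent.W5h93.FMQ.Grp

/-! Eigenvalues of the conjugation on the layers of a residually reducible representation, and
the extension of invariant homomorphisms. -/

set_option autoImplicit false
set_option linter.all false

namespace Pool.Agent.W5h93.FMQ

open Pool.Agent.Z384 IsLocalRing Matrix Pool.Agent.W5h93.FMP

section step

variable {p : ℕ} [hp : Fact p.Prime] {G : Type*} [Group G] {N : Subgroup G} [hN : N.Normal]
variable {B : Type*} [CommRing B]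

theorem conj_pow_eig (h : N →* Multiplicative (ZMod p)) {g : G} {b : ZMod p}
    (hb : ∀ σ, Multiplicative.toAdd (h (MulAut.conjNormal g σ)) = b * Multiplicative.toAdd (h σ))
    (i : ℕ) (σ : N) : Multiplicative.toAdd (h (MulAut.conjNormal (g ^ i) σ)) =
      b ^ i * Multiplicative.toAdd (h σ) := by
  induction i with
  | zero => rw [pow_zero, map_one, MulAut.one_apply, pow_zero, one_mul]
  | succ i ih => rw [pow_succ', map_mul, MulAut.mul_apply, hb, ih, pow_succ']; ring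

theorem eig_step (ρ : G →* GL (Fin 2) B) (M : Subgroup G) (g : G)
    (hMg : ∀ σ ∈ M, g * σ * g⁻¹ ∈ M)
    (hadd : ∀ σ ∈ M, ∀ τ ∈ M, ((ρ σ : Matrix (Fin 2) (Fin 2) B) - 1) *
      ((ρ τ : Matrix (Fin 2) (Fin 2) B) - 1) = 0)
    (α β : ℕ)
    (htr : ∀ σ ∈ M, ((ρ g : Matrix (Fin 2) (Fin 2) B).trace ^ 2) •
      ((ρ σ : Matrix (Fin 2) (Fin 2) B) - 1) = (((α : B) + β) ^ 2) •
      ((ρ σ : Matrix (Fin 2) (Fin 2) B) - 1))
    (hdet : ∀ σ ∈ M, ((ρ g : Matrix (Fin 2) (Fin 2) B).det) •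
      ((ρ σ : Matrix (Fin 2) (Fin 2) B) - 1) = ((α : B) * β) •
      ((ρ σ : Matrix (Fin 2) (Fin 2) B) - 1))
    (h : N →* Multiplicative (ZMod p)) (b : ZMod p)
    (hb : ∀ σ, Multiplicative.toAdd (h (MulAut.conjNormal g σ)) = b * Multiplicative.toAdd (h σ))
    (hk : ∀ σ : N, (σ : G) ∈ M → ρ σ = 1 → h σ = 1) (σ : N) (hσ : (σ : G) ∈ M) :
    ((b - 1) ^ 2 * (α * b - β) * (β * b - α)) * Multiplicative.toAdd (h σ) = 0 := by
  set X : Matrix (Fin 2) (Fin 2) B := (ρ g : Matrix (Fin 2) (Fin 2) B) with hX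
  set Y : Matrix (Fin 2) (Fin 2) B := (((ρ g)⁻¹ : GL (Fin 2) B) : Matrix (Fin 2) (Fin 2) B) with hY
  have hXY : X * Y = 1 := Units.mul_inv _
  have hYX : Y * X = 1 := Units.inv_mul _
  have hXYi : ∀ i : ℕ, X ^ i * Y ^ i = 1 := by
    intro i
    induction i with
    | zero => simp
    | succ i ih => rw [pow_succ, pow_succ', mul_assoc, ← mul_assoc X, hXY, one_mul, ih]
  have hYXi : ∀ i : ℕ, Y ^ i * X ^ i = 1 := by
    intro i
    induction i with
    | zero => simp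
    | succ i ih => rw [pow_succ, pow_succ', mul_assoc, ← mul_assoc Y, hYX, one_mul, ih]
  let ad : M →* Multiplicative (Matrix (Fin 2) (Fin 2) B) :=
    { toFun := fun σ => Multiplicative.ofAdd ((ρ σ : Matrix (Fin 2) (Fin 2) B) - 1)
      map_one' := by
        simp
      map_mul' := by
        intro σ τ
        rw [← ofAdd_add]
        congr 1
        have h1 := hadd σ σ.2 τ τ.2
        rw [Subgroup.coe_mul, map_mul, Units.val_mul]
        have h2 : (ρ (σ : G) : Matrix (Fin 2) (Fin 2) B) * (ρ (τ : G) : Matrix (Fin 2) (Fin 2) B) - 1 =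
            ((ρ (σ : G) : Matrix (Fin 2) (Fin 2) B) - 1) + ((ρ (τ : G) : Matrix (Fin 2) (Fin 2) B) - 1) +
            ((ρ (σ : G) : Matrix (Fin 2) (Fin 2) B) - 1) * ((ρ (τ : G) : Matrix (Fin 2) (Fin 2) B) - 1) := by
          noncomm_ring
        rw [h2, h1, add_zero] }
  have had : ∀ σ : M, Multiplicative.toAdd (ad σ) = (ρ σ : Matrix (Fin 2) (Fin 2) B) - 1 := fun σ => rfl
  have hMi : ∀ i : ℕ, g ^ i * σ * (g ^ i)⁻¹ ∈ M := by
    intro i
    induction i with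
    | zero => simpa using hσ
    | succ i ih =>
      have := hMg _ ih
      have e : g * (g ^ i * σ * (g ^ i)⁻¹) * g⁻¹ = g ^ (i + 1) * σ * (g ^ (i + 1))⁻¹ := by
        rw [pow_succ', _root_.mul_inv_rev]; group
      rwa [e] at this
  let s : ℕ → M := fun i => ⟨g ^ i * σ * (g ^ i)⁻¹, hMi i⟩
  set u : Matrix (Fin 2) (Fin 2) B := (ρ σ : Matrix (Fin 2) (Fin 2) B) - 1 with hu
  have hρY : ∀ i : ℕ, ((ρ (g ^ i)⁻¹ : GL (Fin 2) B) : Matrix (Fin 2) (Fin 2) B) = Y ^ i := by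
    intro i
    rw [← inv_pow, map_pow, map_inv, Units.val_pow_eq_pow_val]
  have hads : ∀ i : ℕ, Multiplicative.toAdd (ad (s i)) = X ^ i * u * Y ^ i := by
    intro i
    rw [had]
    show ((ρ (g ^ i * σ * (g ^ i)⁻¹) : GL (Fin 2) B) : Matrix (Fin 2) (Fin 2) B) - 1 = _
    rw [map_mul, map_mul, Units.val_mul, Units.val_mul, map_pow, Units.val_pow_eq_pow_val, hρY, hu,
      mul_sub, sub_mul, mul_one, hXYi]
  let c4 : ℤ := α * β
  let c3 : ℤ := (α + β) ^ 2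
  let c2 : ℤ := 2 * ((α + β) ^ 2 - α * β)
  let t : M := s 4 ^ c4 * s 3 ^ (-c3) * s 2 ^ c2 * s 1 ^ (-c3) * s 0 ^ c4
  have ht1 : (ρ t : Matrix (Fin 2) (Fin 2) B) - 1 = c4 • (X ^ 4 * u * Y ^ 4) + (-c3) • (X ^ 3 * u * Y ^ 3) +
      c2 • (X ^ 2 * u * Y ^ 2) + (-c3) • (X ^ 1 * u * Y ^ 1) + c4 • (X ^ 0 * u * Y ^ 0) := by
    rw [← had]
    simp only [t, map_mul, map_zpow, toAdd_mul, toAdd_zpow, hads]
  have ht2 : ((ρ t : Matrix (Fin 2) (Fin 2) B) - 1) * X ^ 4 = 0 := by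
    have e : ((ρ t : Matrix (Fin 2) (Fin 2) B) - 1) * X ^ 4 =
        c4 • (X ^ 4 * u) + (-c3) • (X ^ 3 * u * X) + c2 • (X ^ 2 * u * X ^ 2) +
        (-c3) • (X * u * X ^ 3) + c4 • (u * X ^ 4) := by
      rw [ht1]
      simp only [add_mul, smul_mul_assoc]
      have k4 : X ^ 4 * u * Y ^ 4 * X ^ 4 = X ^ 4 * u := by
        rw [mul_assoc _ (Y ^ 4), hYXi, mul_one]
      have k3 : X ^ 3 * u * Y ^ 3 * X ^ 4 = X ^ 3 * u * X := by
        rw [pow_succ X 3, mul_assoc _ (Y ^ 3), ← mul_assoc (Y ^ 3), hYXi, one_mul]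
      have k2 : X ^ 2 * u * Y ^ 2 * X ^ 4 = X ^ 2 * u * X ^ 2 := by
        rw [show X ^ 4 = X ^ 2 * X ^ 2 by rw [← pow_add], mul_assoc _ (Y ^ 2), ← mul_assoc (Y ^ 2),
          hYXi, one_mul]
      have k1 : X ^ 1 * u * Y ^ 1 * X ^ 4 = X * u * X ^ 3 := by
        rw [show X ^ 4 = X ^ 1 * X ^ 3 by rw [← pow_add], mul_assoc _ (Y ^ 1), ← mul_assoc (Y ^ 1),
          hYXi, one_mul, pow_one]
      have k0 : X ^ 0 * u * Y ^ 0 * X ^ 4 = u * X ^ 4 := by
        rw [pow_zero, pow_zero, one_mul, mul_one]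
      rw [k4, k3, k2, k1, k0]
    rw [e]
    have hdu : X.det • u = ((α : B) * β) • u := hdet σ hσ
    have htu : (X.trace ^ 2) • u = (((α : B) + β) ^ 2) • u := htr σ hσ
    have hid := mat_id X u
    have q1 : X.det • (X ^ 4 * u) = c4 • (X ^ 4 * u) := by
      rw [← mul_smul_comm, hdu, mul_smul_comm, ← Int.cast_smul_eq_zsmul B]
      simp only [c4]
      push_cast
      rfl
    have q5 : X.det • (u * X ^ 4) = c4 • (u * X ^ 4) := by
      rw [← smul_mul_assoc, hdu, smul_mul_assoc, ← Int.cast_smul_eq_zsmul B]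
      simp only [c4]
      push_cast
      rfl
    have q2 : (X.trace ^ 2) • (X ^ 3 * u * X) = c3 • (X ^ 3 * u * X) := by
      rw [← smul_mul_assoc, ← mul_smul_comm, htu, mul_smul_comm, smul_mul_assoc,
        ← Int.cast_smul_eq_zsmul B]
      simp only [c3]
      push_cast
      rfl
    have q4 : (X.trace ^ 2) • (X * u * X ^ 3) = c3 • (X * u * X ^ 3) := by
      rw [← smul_mul_assoc, ← mul_smul_comm, htu, mul_smul_comm, smul_mul_assoc,
        ← Int.cast_smul_eq_zsmul B]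
      simp only [c3]
      push_cast
      rfl
    have q3 : (2 * (X.trace ^ 2 - X.det)) • (X ^ 2 * u * X ^ 2) = c2 • (X ^ 2 * u * X ^ 2) := by
      have : (2 * (X.trace ^ 2 - X.det)) • u = (2 * (((α : B) + β) ^ 2 - (α : B) * β)) • u := by
        rw [mul_smul, sub_smul, htu, hdu, ← sub_smul, ← mul_smul]
      rw [← smul_mul_assoc, ← mul_smul_comm, this, mul_smul_comm, smul_mul_assoc,
        ← Int.cast_smul_eq_zsmul B]
      simp only [c2]
      push_cast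
      rfl
    rw [q1, q2, q3, q4, q5] at hid
    rw [← hid, neg_smul, neg_smul]
    abel
  have ht3 : (ρ t : Matrix (Fin 2) (Fin 2) B) - 1 = 0 := by
    have : ((ρ t : Matrix (Fin 2) (Fin 2) B) - 1) * X ^ 4 * Y ^ 4 = 0 := by rw [ht2, zero_mul]
    rwa [mul_assoc, hXYi, mul_one] at this
  have ht4 : ρ (t : G) = 1 := Units.ext (sub_eq_zero.1 ht3)
  let s' : ℕ → N := fun i => MulAut.conjNormal (g ^ i) σ
  let t' : N := s' 4 ^ c4 * s' 3 ^ (-c3) * s' 2 ^ c2 * s' 1 ^ (-c3) * s' 0 ^ c4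
  have hs' : ∀ i, ((s' i : N) : G) = (s i : G) := fun i => MulAut.conjNormal_apply _ _
  have ht' : (t' : G) = (t : G) := by
    simp only [t', t, Subgroup.coe_mul, Subgroup.coe_zpow, hs']
  have ht5 : h t' = 1 := by
    refine hk t' ?_ ?_
    · rw [ht']; exact t.2
    · rw [ht']; exact ht4
  have ht6 : Multiplicative.toAdd (h t') = 0 := by rw [ht5, toAdd_one]
  have hs6 : ∀ i, Multiplicative.toAdd (h (s' i)) = b ^ i * Multiplicative.toAdd (h σ) :=
    fun i => conj_pow_eig h hb i σ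
  simp only [t', map_mul, map_zpow, toAdd_mul, toAdd_zpow, hs6] at ht6
  rw [← ht6]
  simp only [zsmul_eq_mul, c4, c3, c2]
  push_cast
  ring

/-- extension of an invariant homomorphism, up to a factor -/
theorem ext_sub {C : Type*} [Group C] [IsCyclic C] {E : Type*} [CommGroup E] (U : Subgroup G)
    (hNU : N ≤ U) (χ : G →* C) (hχ : ∀ g, g ∈ N ↔ χ g = 1) (h : N →* E)
    (hinv : ∀ σ ∈ U, ∀ τ : N, h (MulAut.conjNormal σ τ) = h τ) (m : ℕ) (hm : ∀ σ ∈ U, σ ^ m ∈ N) :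
    ∃ f : U →* E, ∀ σ : U, f σ = h ⟨(σ : G) ^ m, hm σ σ.2⟩ := by
  set K : Subgroup U := (h.ker.map N.subtype).subgroupOf U with hK
  have hmK : ∀ σ : U, σ ∈ K ↔ ∃ hσ : (σ : G) ∈ N, h ⟨σ, hσ⟩ = 1 := by
    intro σ
    rw [hK, Subgroup.mem_subgroupOf]
    constructor
    · rintro ⟨τ, h1, h2⟩
      have h3 : (τ : G) = (σ : G) := h2
      refine ⟨by rw [← h3]; exact τ.2, ?_⟩
      have : (⟨σ, by rw [← h3]; exact τ.2⟩ : N) = τ := Subtype.ext h3.symm
      rw [this]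
      exact h1
    · rintro ⟨hσ, h1⟩
      exact ⟨⟨σ, hσ⟩, h1, rfl⟩
  have hKn : K.Normal := by
    constructor
    intro n hn g
    rw [hmK] at hn ⊢
    obtain ⟨h1, h2⟩ := hn
    refine ⟨hN.conj_mem _ h1 _, ?_⟩
    have h3 := hinv g g.2 ⟨n, h1⟩
    rw [h2] at h3
    rw [← h3]
    congr 1
  let ψ : U ⧸ K →* C := QuotientGroup.lift K (χ.comp U.subtype) (by
    intro σ hσ
    obtain ⟨h1, -⟩ := (hmK σ).1 hσ
    exact (hχ _).1 h1)
  have hcen : ψ.ker ≤ Subgroup.center (U ⧸ K) := by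
    intro x hx
    obtain ⟨τ, rfl⟩ := QuotientGroup.mk_surjective x
    have hτ : (τ : G) ∈ N := (hχ _).2 hx
    rw [Subgroup.mem_center_iff]
    intro y
    obtain ⟨σ, rfl⟩ := QuotientGroup.mk_surjective y
    rw [← QuotientGroup.mk_mul, ← QuotientGroup.mk_mul]
    symm
    refine QuotientGroup.eq.2 ?_
    rw [hmK]
    have h1 : (((τ * σ)⁻¹ * (σ * τ) : U) : G) ∈ N := by
      have e : (((τ * σ)⁻¹ * (σ * τ) : U) : G) = (σ : G)⁻¹ * (τ : G)⁻¹ * σ * τ := by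
        simp only [Subgroup.coe_mul, Subgroup.coe_inv]
        group
      rw [e]
      refine mul_mem ?_ hτ
      have := hN.conj_mem _ (inv_mem hτ) (σ : G)⁻¹
      rwa [inv_inv] at this
    refine ⟨h1, ?_⟩
    have h2 : (⟨_, h1⟩ : N) = MulAut.conjNormal ((σ : G)⁻¹) (⟨τ, hτ⟩ : N)⁻¹ * (⟨τ, hτ⟩ : N) := by
      apply Subtype.ext
      simp only [Subgroup.coe_mul, MulAut.conjNormal_apply, Subgroup.coe_inv]
      group
    have h3 := congrArg h h2
    rw [map_mul, hinv _ (inv_mem σ.2), map_inv, inv_mul_cancel] at h3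
    exact h3
  have hcomm : ∀ a b : U ⧸ K, a * b = b * a := fun a b =>
    commutative_of_cyclic_center_quotient ψ hcen a b
  refine ⟨MonoidHom.mk' (fun σ : U => h ⟨(σ : G) ^ m, hm σ σ.2⟩) ?_, fun σ => rfl⟩
  intro σ τ
  have h1 : (QuotientGroup.mk ((σ * τ) ^ m) : U ⧸ K) = QuotientGroup.mk (σ ^ m * τ ^ m) := by
    rw [QuotientGroup.mk_pow, QuotientGroup.mk_mul, QuotientGroup.mk_mul, QuotientGroup.mk_pow,
      QuotientGroup.mk_pow]
    exact Commute.mul_pow (hcomm _ _) m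
  have h2 := QuotientGroup.eq.1 h1.symm
  rw [hmK] at h2
  obtain ⟨h3, h4⟩ := h2
  have h5 : (⟨_, h3⟩ : N) = ((⟨(σ : G) ^ m, hm σ σ.2⟩ : N) * ⟨(τ : G) ^ m, hm τ τ.2⟩)⁻¹ *
      ⟨((σ * τ : U) : G) ^ m, hm _ (σ * τ).2⟩ := by
    apply Subtype.ext
    simp only [Subgroup.coe_mul, Subgroup.coe_inv, Subgroup.coe_pow]
  rw [h5, map_mul, map_inv, map_mul] at h4
  exact (inv_mul_eq_one.1 h4).symm

end step

end Pool.Agent.W5h93.FMQ
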